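import Mathlib
import Pool.Agent.H50.Vreg7
import Pool.Agent.H20.Chordal

namespace Pool.Agent.Results.MP_0205ad_al.Bound

open Finset MvPolynomial Pool.Agent.H50.Vreg

variable {n : ℕ} (G : SimpleGraph (Fin n)) [DecidableRel G.Adj]

/-- The closed neighbourhood. -/
def NB (i : Fin n) : Finset (Fin n) := insert i (G.neighborFinset i)

/-- The neighbourhood ideal for the degree vector. -/
noncomputable def NI (K : Type) [Field K] : Ideal (MvPolynomial (Fin n) K) :=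
  ⨆ i, Ideal.span {f | ∃ W, W ⊆ NB G i ∧ W.card = G.degree i ∧ f = ∏ j ∈ W, X j}

def B (F : Finset (Fin n)) : Prop := ∃ i, (NB G i \ F).card ≤ 1

lemma mem_NB {i j : Fin n} : j ∈ NB G i ↔ j = i ∨ G.Adj i j := by simp [NB]

lemma card_NB (i : Fin n) : (NB G i).card = G.degree i + 1 := by
  rw [NB, card_insert_of_notMem (by simp), G.card_neighborFinset_eq_degree]

lemma B_up : Up (B G) := fun _ _ h ⟨i, hi⟩ =>
  ⟨i, (card_le_card (sdiff_subset_sdiff subset_rfl h)).trans hi⟩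

lemma NI_eq (K : Type) [Field K] : NI G K = M K (B G) := by
  refine le_antisymm (iSup_le fun i => Ideal.span_mono ?_) (Ideal.span_le.2 ?_)
  · rintro _ ⟨W, h1, h2, rfl⟩
    exact ⟨W, ⟨i, by rw [card_sdiff_of_subset h1, card_NB, h2]; omega⟩, rfl⟩
  · rintro _ ⟨S, ⟨i, hi⟩, rfl⟩
    have h1 := card_sdiff_add_card_inter (NB G i) S
    rw [card_NB] at h1
    obtain ⟨W, hW, hc⟩ := exists_subset_card_eq (s := NB G i ∩ S) (n := G.degree i) (by omega)
    refine le_iSup (fun i => Ideal.span {f : MvPolynomial (Fin n) K |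
      ∃ W, W ⊆ NB G i ∧ W.card = G.degree i ∧ f = ∏ j ∈ W, X j}) i ?_
    rw [← prod_sdiff (hW.trans inter_subset_right)]
    exact Ideal.mul_mem_left _ _ (Ideal.subset_span ⟨W, hW.trans inter_subset_left, hc, rfl⟩)

omit [DecidableRel G.Adj] in
lemma greedy (ρ : Fin n → ℕ) (hρ : Function.Injective ρ) : ∃ A : Finset (Fin n),
    (∀ u ∈ A, ∀ v ∈ A, ¬ G.Adj u v) ∧ ∀ u, u ∉ A → ∃ v ∈ A, G.Adj v u ∧ ρ v < ρ u := by
  have key : ∀ t, ∃ A : Finset (Fin n), (∀ u ∈ A, ρ u < t) ∧ (∀ u ∈ A, ∀ v ∈ A, ¬ G.Adj u v) ∧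
      ∀ u, ρ u < t → u ∉ A → ∃ v ∈ A, G.Adj v u ∧ ρ v < ρ u := by
    intro t
    induction t with
    | zero => exact ⟨∅, by simp⟩
    | succ t ih =>
      obtain ⟨A, h1, h2, h3⟩ := ih
      by_cases h : ∃ x, ρ x = t ∧ ∀ v ∈ A, ¬ G.Adj v x
      · obtain ⟨x, hx, h4⟩ := h
        refine ⟨insert x A, fun u hu => ?_, fun u hu v hv => ?_, fun u hu hA => ?_⟩
        · rcases mem_insert.1 hu with rfl | hu
          · omega
          · have := h1 u hu; omega
        · rcases mem_insert.1 hu with a | a <;> rcases mem_insert.1 hv with b | b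
          exacts [a ▸ b ▸ G.irrefl, fun e => h4 v b (a ▸ e.symm), b ▸ h4 u a, h2 u a v b]
        · rw [mem_insert, not_or] at hA
          have : ρ u ≠ t := fun e => hA.1 (hρ (e.trans hx.symm))
          obtain ⟨v, a, b⟩ := h3 u (by omega) hA.2
          exact ⟨v, mem_insert_of_mem a, b⟩
      · refine ⟨A, fun u hu => (h1 u hu).trans (Nat.lt_succ_self t), h2, fun u hu hA => ?_⟩
        by_cases e : ρ u = t
        · push Not at h
          obtain ⟨v, a, b⟩ := h u e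
          exact ⟨v, a, b, e ▸ h1 v a⟩
        · exact h3 u (by omega) hA
  obtain ⟨A, -, h2, h3⟩ := key (univ.sup ρ + 1)
  exact ⟨A, h2, fun u => h3 u (Nat.lt_succ_of_le (le_sup (mem_univ u)))⟩

section
variable {ρ : Fin n → ℕ} (hρ : Function.Injective ρ)
  (hp : ∀ v a b, G.Adj v a → G.Adj v b → ρ v < ρ a → ρ v < ρ b → a ≠ b → G.Adj a b)
  {A : Finset (Fin n)} (hA : ∀ u ∈ A, ∀ v ∈ A, ¬ G.Adj u v)
  (hO : ∀ u, u ∉ A → ∃ v ∈ A, G.Adj v u ∧ ρ v < ρ u)

omit [DecidableRel G.Adj] in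
include hp hO in
lemma cover : Aᶜ.card ≤ G.vertexCoverNum.toNat := by
  classical
  obtain ⟨s, hs, hc⟩ := G.vertexCoverNum_exists
  have e : G.vertexCoverNum.toNat = s.toFinset.card := by
    rw [← hs, Set.encard_eq_coe_toFinset_card]; rfl
  have hown : ∀ u, ∃ v ∈ A, v = u ∨ (G.Adj v u ∧ ρ v < ρ u) := fun u => by
    by_cases h : u ∈ A
    · exact ⟨u, h, Or.inl rfl⟩
    · obtain ⟨v, a, b⟩ := hO u h; exact ⟨v, a, Or.inr b⟩
  choose f hf1 hf2 using hown
  have h1 : s.toFinsetᶜ.card ≤ A.card := by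
    refine card_le_card_of_injOn f (fun u _ => hf1 u) fun u hu v hv huv => ?_
    by_contra hne
    have hu' : u ∉ s := by simpa using hu
    have hv' : v ∉ s := by simpa using hv
    have : G.Adj u v := by
      rcases hf2 u with a | a <;> rcases hf2 v with b | b
      · exact absurd (a.symm.trans (huv.trans b)) hne
      · exact a ▸ huv ▸ b.1
      · exact (b ▸ huv ▸ a.1 : G.Adj v u).symm
      · exact hp (f u) u v a.1 (huv ▸ b.1) a.2 (huv ▸ b.2) hne
    exact (hc this).elim hu' hv'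
  have h2 := card_compl s.toFinset
  have h3 := card_compl A
  have h4 := card_le_univ s.toFinset
  omega

def late (ρ : Fin n → ℕ) (U : Finset (Fin n)) (v : Fin n) : Finset (Fin n) :=
  U.filter fun u => G.Adj v u ∧ ρ v < ρ u

include hρ hp hA hO in
lemma cnt {O1 O2 : Finset (Fin n)} (h2 : ∀ v ∈ O2, v ∈ A ∧ (late G ρ (Aᶜ \ O1) v).card ≤ 1)
    (hB : ¬ B G (O1 ∪ O2)) : O2.card + Nat.card G.ConnectedComponent ≤ (Aᶜ \ O1).card := by
  classical
  set U := Aᶜ \ O1
  have hnb : ∀ i, 1 < (NB G i \ (O1 ∪ O2)).card := fun i => not_le.1 fun h => hB ⟨i, h⟩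
  have hU : ∀ v ∈ A, ∀ u ∈ NB G v \ (O1 ∪ O2), u ≠ v → u ∈ U ∧ G.Adj v u := fun v hv u hu hne => by
    rw [mem_sdiff, mem_NB, mem_union, not_or] at hu
    have h := hu.1.resolve_left hne
    exact ⟨mem_sdiff.2 ⟨mem_compl.2 fun e => hA v hv u e h, hu.2.1⟩, h⟩
  set T := U.filter fun w => ∃ w' ∈ U, ρ w < ρ w' ∧ G.Reachable w w'
  have c1 : O2.card ≤ T.card := by
    have : ∀ v ∈ O2, ∃ w ∈ T, G.Adj v w ∧ ρ w < ρ v := fun v hv => by
      obtain ⟨a, ha, b, hb, hab⟩ := one_lt_card.1 (hnb v)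
      have hne : ∀ u ∈ NB G v \ (O1 ∪ O2), u ≠ v := fun u hu e =>
        (mem_sdiff.1 hu).2 (mem_union_right _ (e ▸ hv))
      have a1 := hU v (h2 v hv).1 a ha (hne a ha)
      have b1 := hU v (h2 v hv).1 b hb (hne b hb)
      wlog h : ρ a < ρ b generalizing a b
      · exact this b hb a ha hab.symm b1 a1 (lt_of_le_of_ne (not_lt.1 h) fun e => hab (hρ e).symm)
      refine ⟨a, mem_filter.2 ⟨a1.1, b, b1.1, h, a1.2.symm.reachable.trans b1.2.reachable⟩,
        a1.2, ?_⟩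
      by_contra h3
      have h4 : ρ v < ρ a := lt_of_le_of_ne (not_lt.1 h3) fun e => a1.2.ne (hρ e)
      exact absurd (one_lt_card.2 ⟨a, mem_filter.2 ⟨a1.1, a1.2, h4⟩, b,
        mem_filter.2 ⟨b1.1, b1.2, h4.trans h⟩, hab⟩) (not_lt.2 (h2 v hv).2)
    choose! f hf1 hf2 hf3 using this
    refine card_le_card_of_injOn f hf1 fun u hu v hv huv => ?_
    by_contra hne
    exact hA u (h2 u hu).1 v (h2 v hv).1 (hp (f u) u v (hf2 u hu).symm (huv ▸ (hf2 v hv).symm)
      (hf3 u hu) (huv ▸ hf3 v hv) hne)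
  have c2 : Nat.card G.ConnectedComponent ≤ (U \ T).card := by
    rw [Nat.card_eq_fintype_card, ← card_univ]
    refine card_le_card_of_surjOn G.connectedComponentMk fun C _ => ?_
    obtain ⟨i, rfl⟩ := C.exists_rep
    have hne : (U.filter fun w => G.Reachable i w).Nonempty := by
      obtain ⟨v, hv, hr⟩ : ∃ v ∈ A, G.Reachable i v := by
        by_cases h : i ∈ A
        · exact ⟨i, h, .refl i⟩
        · obtain ⟨v, a, b⟩ := hO i h; exact ⟨v, a, b.1.symm.reachable⟩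
      obtain ⟨u, hu, hne⟩ := exists_mem_ne (hnb v) v
      exact ⟨u, mem_filter.2 ⟨(hU v hv u hu hne).1, hr.trans (hU v hv u hu hne).2.reachable⟩⟩
    obtain ⟨m, hm, hmax⟩ := exists_max_image _ ρ hne
    rw [mem_filter] at hm
    refine ⟨m, mem_coe.2 (mem_sdiff.2 ⟨hm.1, fun h => ?_⟩),
      SimpleGraph.ConnectedComponent.sound hm.2.symm⟩
    obtain ⟨w, a, b, c⟩ := (mem_filter.1 h).2
    exact absurd (hmax w (mem_filter.2 ⟨a, hm.2.trans c⟩)) (not_le.2 b)
  have : (U \ T).card + T.card = U.card := card_sdiff_add_card_eq_card (filter_subset _ U)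
  omega

include hρ hp hA in
lemma dd {O U1 U : Finset (Fin n)} (h1 : U1 ⊆ U) (hB : ¬ B G O)
    (h2 : ∀ u, u ∉ O → u ∉ U → u ∈ A ∧ 1 < (late G ρ U1 u).card ∧ ¬ B G (insert u O))
    (F : Finset (Fin n)) (hF : B G F) : ∃ u ∈ U, u ∈ F := by
  obtain ⟨i, hi⟩ := hF
  by_contra hc
  push Not at hc
  have small : ∀ S ⊆ NB G i, S ⊆ U → S.card ≤ 1 := fun S a b =>
    (card_le_card fun x hx => mem_sdiff.2 ⟨a hx, hc x (b hx)⟩).trans hi
  have later : ∀ u ∈ NB G i, u ∉ O → u ∉ U → G.Adj i u ∧ ρ i < ρ u := fun u hu a b => by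
    by_contra h
    refine absurd (small _ (fun x hx => ?_) ((filter_subset _ _).trans h1)) (not_le.2 (h2 u a b).2.1)
    have hx' := (mem_filter.1 hx).2
    rw [mem_NB] at hu ⊢
    rcases hu with rfl | hu
    · exact Or.inr hx'.1
    · have : ρ u < ρ i := lt_of_le_of_ne (not_lt.1 fun e => h ⟨hu, e⟩) fun e => hu.ne (hρ e).symm
      by_cases e : x = i
      · exact Or.inl e
      · exact Or.inr (hp u i x hu.symm hx'.1 this hx'.2 (Ne.symm e))
  by_cases h : NB G i \ O ⊆ U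
  · exact hB ⟨i, small _ sdiff_subset h⟩
  obtain ⟨u, hu, huU⟩ := not_subset.1 h
  rw [mem_sdiff] at hu
  refine (h2 u hu.2 huU).2.2 ⟨i, small _ sdiff_subset fun x hx => ?_⟩
  by_contra hx'
  rw [mem_sdiff, mem_insert, not_or] at hx
  have a := later u hu.1 hu.2 huU
  have b := later x hx.1 hx.2.2 hx'
  exact hA x (h2 x hx.2.2 hx').1 u (h2 u hu.2 huU).1 (hp i x u b.1 a.1 b.2 a.2 hx.2.1)
end

theorem result (K : Type) [Field K] (n : ℕ) (G : SimpleGraph (Fin n)) [DecidableRel G.Adj]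
    (hG : ∀ (v : Fin n) (c : G.Walk v v), c.IsCycle → 4 ≤ c.length → ¬ c.IsChordless) :
    regQ K (NI G K) ≤ (((G.vertexCoverNum.toNat : ℤ) - Nat.card G.ConnectedComponent : ℤ) : ℝ) := by
  classical
  obtain ⟨ρ, h1, h2⟩ := Pool.Agent.H20.Chordal.peo G hG univ
  have hρ : Function.Injective ρ := fun u v => h1 u (mem_univ u) v (mem_univ v)
  have hp := fun v a b => h2 v (mem_univ v) a (mem_univ a) b (mem_univ b)
  obtain ⟨A, hA, hO⟩ := greedy G ρ hρ
  have e : B G = NS (B G) ∅ ∅ := by ext S; simp [NS]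
  rw [NI_eq, e]
  refine regQ_le K (query K (B_up G) Aᶜ _ _ _ (by simp) fun O1 hO1 => ?_)
  rw [empty_union, empty_union]
  set Q2 := A.filter fun v => (late G ρ (Aᶜ \ O1) v).card ≤ 1 with hQ2
  refine query K (B_up G) Q2 _ _ _ (by
    rw [disjoint_left]; intro v a b; simp [hQ2] at a b; exact b.1 a.1) fun O2 hO2 => ?_
  set Q3 := (A \ Q2).filter fun v => B G (insert v (O1 ∪ O2)) with hQ3
  refine query K (B_up G) Q3 _ _ _ (by
    rw [disjoint_left]; intro v a b
    rw [mem_filter, mem_sdiff] at a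
    rcases mem_union.1 b with b | b
    · exact mem_compl.1 (mem_sdiff.1 b).1 a.1.1
    · exact a.1.2 (mem_sdiff.1 b).1) fun O3 hO3 => ?_
  by_cases hB : B G (O1 ∪ O2 ∪ O3)
  · exact NS_unit K hB _ _
  have e3 : O3 = ∅ := eq_empty_of_forall_notMem fun v hv => hB (B_up G _ _
    (insert_subset (mem_union_right _ hv) subset_union_left) (mem_filter.1 (hO3 hv)).2)
  subst e3
  rw [union_empty] at hB ⊢
  rw [sdiff_empty]
  refine NS_done K ?_ (dd G hρ hp hA (U1 := Aᶜ \ O1) (subset_union_left.trans subset_union_left) hB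
    fun u a b => ?_) ?_
  · rw [disjoint_left]; intro v a b
    simp only [mem_union, mem_sdiff, mem_compl, hQ3, mem_filter] at a b
    have a1 : v ∈ O1 → v ∉ A := fun h => mem_compl.1 (hO1 h)
    have a2 : v ∈ O2 → v ∈ Q2 := fun h => hO2 h
    have a4 : v ∈ Q2 → v ∈ A := fun h => (mem_filter.1 h).1
    tauto
  · simp only [mem_union, mem_sdiff, mem_compl, hQ3, mem_filter, not_or] at a b
    have a1 : u ∈ A := by tauto
    have a2 : u ∉ Q2 := by tauto
    exact ⟨a1, not_le.1 fun h => a2 (mem_filter.2 ⟨a1, h⟩), by tauto⟩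
  · have c1 := cnt G hρ hp hA hO (O1 := O1) (O2 := O2) (fun v hv => mem_filter.1 (hO2 hv)) hB
    have c2 := cover G hp hO
    have c3 := card_sdiff_add_card_eq_card hO1
    simp only [card_empty]; omega

end Pool.Agent.Results.MP_0205ad_al.Bound
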